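import Pool.Agent.H.MP_8dad81_al.A

set_option autoImplicit false

namespace Pool.Agent.Results.MP_8dad81_al.Five

open Pool.Agent.H.MP_8dad81_al

theorem result (n : ℕ) (hn : 2 ≤ n) (A : Matrix (Fin n ⊕ Fin n) (Fin n ⊕ Fin n) ℂ) (hA : InSp A) :
    ∃ s : Fin 5 → Matrix (Fin n ⊕ Fin n) (Fin n ⊕ Fin n) ℂ,
      (∀ i, InSp (s i) ∧ s i * s i = 1) ∧ A = s 0 * s 1 * s 2 * s 3 * s 4 := by
  obtain ⟨a, b, c, d, e, ha, hb, hc, hd, he, h⟩ := main hn ((S_iff A).2 hA)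
  refine ⟨![a, b, c, d, e], fun i => ?_, h⟩
  fin_cases i
  exacts [⟨(S_iff _).1 ha.1, ha.2⟩, ⟨(S_iff _).1 hb.1, hb.2⟩, ⟨(S_iff _).1 hc.1, hc.2⟩,
    ⟨(S_iff _).1 hd.1, hd.2⟩, ⟨(S_iff _).1 he.1, he.2⟩]

end Pool.Agent.Results.MP_8dad81_al.Five
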